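import Mathlib
import Pool.Agent.H6Delta

set_option autoImplicit false

open Set Cardinal

namespace Pool.Agent.Results.MP_553296_lc.DeltaFour

/-- `δ = Δ(x,y)`: `δ` is the least place where `x` and `y` differ. -/
def IsDelta {K : Type} [LinearOrder K] (x y : K → Bool) (δ : K) : Prop :=
  (∀ β < δ, x β = y β) ∧ x δ ≠ y δ

/-- `Δ`-regressive colourings: `c(x,y) < Δ(x,y)` whenever `Δ(x,y) > 0`. -/
def Reg {K : Type} [LinearOrder K] (c : Sym2 (K → Bool) → K) : Prop :=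
  ∀ x y δ, IsDelta x y δ → (∃ a, a < δ) → c s(x, y) < δ

/-- Monochromatic sets. -/
def Mono {K : Type} (c : Sym2 (K → Bool) → K) (Y : Set (K → Bool)) : Prop :=
  ∃ i, ∀ x ∈ Y, ∀ y ∈ Y, x ≠ y → c s(x, y) = i

section
variable {K : Type} [LinearOrder K] [WellFoundedLT K]

lemma exists_delta {x y : K → Bool} (h : x ≠ y) : ∃ δ, IsDelta x y δ := by
  obtain ⟨δ, h1, h2⟩ := wellFounded_lt.has_min {a | x a ≠ y a} (Function.ne_iff.1 h)
  exact ⟨δ, fun β hβ => not_not.1 (fun h => h2 β h hβ), h1⟩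

omit [WellFoundedLT K] in
lemma delta_unique {x y : K → Bool} {a b : K} (ha : IsDelta x y a) (hb : IsDelta x y b) :
    a = b := by
  rcases lt_trichotomy a b with h | h | h
  · exact (ha.2 (hb.1 a h)).elim
  · exact h
  · exact (hb.2 (ha.1 b h)).elim

omit [WellFoundedLT K] in
lemma four (e : ℕ → K) (w : K) (he : ∀ a n, a < e n ↔ ∃ k < n, a = e k)
    (hw : ∀ a, a < w ↔ ∃ k, a = e k) (c : Sym2 (K → Bool) → K) (hc : Reg c) :
    ∃ Y : Set (K → Bool), Y.ncard = 4 ∧ Mono c Y := by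
  classical
  by_contra hcon
  push Not at hcon
  have hlt : ∀ n, e n < e (n + 1) := fun n => (he _ _).2 ⟨n, Nat.lt_succ_self n, rfl⟩
  have hmono : StrictMono e := strictMono_nat_of_lt_succ hlt
  let Good : ℕ → (K → Bool) → Prop := fun n x0 => ∀ x y, x ≠ y → (∀ a < e (n + 1), x a = x0 a) →
    (∀ a < e (n + 1), y a = x0 a) → ¬ c s(x, y) < e n
  have step : ∀ n x0, Good n x0 → ∃ x1, (∀ a < e (n + 1), x1 a = x0 a) ∧ Good (n + 1) x1 := by
    intro n x0 hg
    by_contra hno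
    push Not at hno
    have key : ∀ b : Bool, ∃ x y, x ≠ y ∧ (∀ a < e (n + 1), x a = x0 a) ∧
        (∀ a < e (n + 1), y a = x0 a) ∧ x (e (n + 1)) = b ∧ y (e (n + 1)) = b ∧
        c s(x, y) < e (n + 1) := by
      intro b
      have h1 : ∀ a < e (n + 1), Function.update x0 (e (n + 1)) b a = x0 a :=
        fun a ha => Function.update_of_ne ha.ne _ _
      have h2 := hno _ h1
      simp only [Good] at h2
      push Not at h2
      obtain ⟨x, y, h3, h4, h5, h6⟩ := h2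
      exact ⟨x, y, h3, fun a ha => (h4 a (ha.trans (hlt _))).trans (h1 a ha),
        fun a ha => (h5 a (ha.trans (hlt _))).trans (h1 a ha), by simpa using h4 _ (hlt _),
        by simpa using h5 _ (hlt _), h6⟩
    have col : ∀ x y, x ≠ y → (∀ a < e (n + 1), x a = x0 a) → (∀ a < e (n + 1), y a = x0 a) →
        c s(x, y) < e (n + 1) → c s(x, y) = e n := by
      intro x y h1 h2 h3 h4
      obtain ⟨k, hk, h5⟩ := (he _ _).1 h4
      rcases (Nat.lt_succ_iff.1 hk).eq_or_lt with h | h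
      · rw [h5, h]
      · exact (hg x y h1 h2 h3 (h5 ▸ hmono h)).elim
    have cross : ∀ x y : K → Bool, (∀ a < e (n + 1), x a = x0 a) → (∀ a < e (n + 1), y a = x0 a) →
        x (e (n + 1)) = false → y (e (n + 1)) = true → x ≠ y ∧ c s(x, y) = e n := by
      intro x y h1 h2 h3 h4
      have h5 : x (e (n + 1)) ≠ y (e (n + 1)) := by simp [h3, h4]
      have h6 : x ≠ y := fun h => h5 (h ▸ rfl)
      exact ⟨h6, col x y h6 h1 h2 (hc x y _ ⟨fun a ha => (h1 a ha).trans (h2 a ha).symm, h5⟩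
        ⟨_, hlt n⟩)⟩
    obtain ⟨x, y, a1, a2, a3, a4, a5, a6⟩ := key false
    obtain ⟨u, v, b1, b2, b3, b4, b5, b6⟩ := key true
    have c1 := col x y a1 a2 a3 a6
    have c2 := col u v b1 b2 b3 b6
    obtain ⟨d1, c3⟩ := cross x u a2 b2 a4 b4
    obtain ⟨d2, c4⟩ := cross x v a2 b3 a4 b5
    obtain ⟨d3, c5⟩ := cross y u a3 b2 a5 b4
    obtain ⟨d4, c6⟩ := cross y v a3 b3 a5 b5
    refine hcon {x, y, u, v} (Set.ncard_eq_four.2 ⟨x, y, u, v, a1, d1, d2, d3, d4, b1, rfl⟩)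
      ⟨e n, ?_⟩
    intro p hp q hq hpq
    simp only [mem_insert_iff, mem_singleton_iff] at hp hq
    rcases hp with rfl | rfl | rfl | rfl <;> rcases hq with rfl | rfl | rfl | rfl <;>
      first | exact (hpq rfl).elim | assumption | (rw [Sym2.eq_swap]; assumption)
  choose! F hF using step
  let X : ℕ → K → Bool := fun n => Nat.rec (fun _ => false) (fun n x => F n x) n
  have hX : ∀ n, Good n (X n) := by
    intro n
    induction n with
    | zero =>
      intro x y _ _ _ h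
      obtain ⟨k, hk, _⟩ := (he _ _).1 h
      omega
    | succ k ih => exact (hF k _ ih).2
  have hag : ∀ n j, n ≤ j → ∀ a < e (n + 1), X j a = X n a := by
    intro n j h a ha
    induction j, h using Nat.le_induction with
    | base => rfl
    | succ j hj ih =>
      rw [← ih]
      exact (hF j _ (hX j)).1 a (ha.trans_le (hmono.monotone (Nat.succ_le_succ hj)))
  let z : K → Bool := fun a => if h : ∃ k, a = e k then X h.choose a else false
  have hz : ∀ n, ∀ a < e (n + 1), z a = X n a := by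
    intro n a ha
    obtain ⟨k, hk, rfl⟩ := (he _ _).1 ha
    have h1 : ∃ j, e k = e j := ⟨k, rfl⟩
    have h2 : h1.choose = k := (hmono.injective h1.choose_spec).symm
    simp only [z, dif_pos h1, h2]
    exact (hag k n (Nat.lt_succ_iff.1 hk) _ (hlt k)).symm
  let z' := Function.update z w (!z w)
  have h1 : ∀ a < w, z' a = z a := fun a ha => Function.update_of_ne ha.ne _ _
  have h2 : z w ≠ z' w := by simp [z']
  obtain ⟨j, hj⟩ := (hw _).1 (hc z z' w ⟨fun a ha => (h1 a ha).symm, h2⟩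
    ⟨e 0, (hw _).2 ⟨0, rfl⟩⟩)
  refine hX (j + 1) z z' (fun h => h2 (h ▸ rfl)) (hz _) (fun a ha => ?_) (hj ▸ hlt j)
  rw [h1 a (ha.trans ((hw _).2 ⟨_, rfl⟩)), hz _ a ha]

lemma five (e : ℕ → K) (w : K) (he : ∀ a n, a < e n ↔ ∃ k < n, a = e k)
    (hw : ∀ a, a < w ↔ ∃ k, a = e k) (h : (K → Bool) ↪ (ℕ → Bool)) :
    ∃ c : Sym2 (K → Bool) → K, Reg c ∧ ∀ Y, Mono c Y → Y.encard ≤ 4 := by
  classical
  have hlt : ∀ n, e n < e (n + 1) := fun n => (he _ _).2 ⟨n, Nat.lt_succ_self n, rfl⟩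
  have hmono : StrictMono e := strictMono_nat_of_lt_succ hlt
  have hew : ∀ n, e n < w := fun n => (hw _).2 ⟨n, rfl⟩
  let R : (K → Bool) → (K → Bool) → K → Prop := fun x y i =>
    (x (e 0) ≠ y (e 0) ∧ i = w) ∨ (∃ n, IsDelta x y (e (n + 1)) ∧ i = e n) ∨
      ((∀ n, x (e n) = y (e n)) ∧ ∃ n, h x n ≠ h y n ∧ i = e n)
  have hR : ∀ x y i, R x y i → R y x i := by
    rintro x y i (⟨h1, h2⟩ | ⟨n, h1, h2⟩ | ⟨h1, n, h2, h3⟩)
    · exact Or.inl ⟨h1.symm, h2⟩
    · exact Or.inr (Or.inl ⟨n, ⟨fun a ha => (h1.1 a ha).symm, h1.2.symm⟩, h2⟩)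
    · exact Or.inr (Or.inr ⟨fun n => (h1 n).symm, n, h2.symm, h3⟩)
  have hex : ∀ p : Sym2 (K → Bool), ∃ i, ∀ x y, p = s(x, y) → x ≠ y → R x y i := by
    intro p
    induction p using Sym2.ind with
    | h x y =>
      by_cases hxy : x = y
      · refine ⟨w, fun a b hab hne => (hne ?_).elim⟩
        rcases Sym2.eq_iff.1 hab with ⟨rfl, rfl⟩ | ⟨rfl, rfl⟩
        · exact hxy
        · exact hxy.symm
      have h1 : ∃ i, R x y i := by
        obtain ⟨δ, hδ⟩ := exists_delta hxy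
        rcases lt_or_ge δ w with h2 | h2
        · obtain ⟨k, rfl⟩ := (hw _).1 h2
          cases k with
          | zero => exact ⟨w, Or.inl ⟨hδ.2, rfl⟩⟩
          | succ n => exact ⟨_, Or.inr (Or.inl ⟨n, hδ, rfl⟩)⟩
        · obtain ⟨n, hn⟩ := Function.ne_iff.1 (h.injective.ne hxy)
          exact ⟨_, Or.inr (Or.inr ⟨fun k => hδ.1 _ ((hew k).trans_le h2), n, hn, rfl⟩)⟩
      obtain ⟨i, hi⟩ := h1
      refine ⟨i, fun a b hab _ => ?_⟩
      rcases Sym2.eq_iff.1 hab with ⟨rfl, rfl⟩ | ⟨rfl, rfl⟩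
      · exact hi
      · exact hR _ _ _ hi
  choose c hc using hex
  refine ⟨c, fun x y δ hδ ⟨a, ha⟩ => ?_, fun Y ⟨i, hi⟩ => ?_⟩
  · rcases hc _ x y rfl (fun h => hδ.2 (h ▸ rfl)) with ⟨h1, _⟩ | ⟨n, h1, h2⟩ | ⟨h1, n, _, h3⟩
    · refine (h1 (hδ.1 _ (lt_of_le_of_lt (not_lt.1 (fun h2 => ?_)) ha))).elim
      obtain ⟨k, hk, _⟩ := (he _ _).1 h2
      omega
    · rw [h2, delta_unique hδ h1]; exact hlt n
    · rw [h3]
      refine (hew n).trans_le (not_lt.1 (fun h2 => ?_))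
      obtain ⟨k, rfl⟩ := (hw _).1 h2
      exact hδ.2 (h1 k)
  · have key : ∃ g : (K → Bool) → Bool × Bool, InjOn g Y := by
      by_cases h0 : ∃ n, i = e n
      · obtain ⟨n, rfl⟩ := h0
        refine ⟨fun x => (x (e (n + 1)), h x n), fun x hx y hy hg => ?_⟩
        by_contra hne
        have h1 := hc _ x y rfl hne
        rw [hi x hx y hy hne] at h1
        rcases h1 with ⟨_, h2⟩ | ⟨k, h1, h2⟩ | ⟨_, k, h2, h3⟩
        · exact (hew n).ne h2
        · obtain rfl := hmono.injective h2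
          exact h1.2 (congrArg Prod.fst hg)
        · obtain rfl := hmono.injective h3
          exact h2 (congrArg Prod.snd hg)
      · refine ⟨fun x => (x (e 0), false), fun x hx y hy hg => ?_⟩
        by_contra hne
        have h1 := hc _ x y rfl hne
        rw [hi x hx y hy hne] at h1
        rcases h1 with ⟨h1, _⟩ | ⟨k, _, h2⟩ | ⟨_, k, _, h3⟩
        · exact h1 (congrArg Prod.fst hg)
        · exact h0 ⟨k, h2⟩
        · exact h0 ⟨k, h3⟩
    obtain ⟨g, hg⟩ := key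
    rw [← hg.encard_image]
    refine (encard_le_encard (subset_univ _)).trans ?_
    simp [encard_univ]

lemma big (e0 e1 : K) (h01 : e0 < e1) (h1 : ∀ a < e1, a = e0) (h2 : (2 : Cardinal.{0}) ^ ℵ₀ < 2 ^ #K)
    (c : Sym2 (K → Bool) → K) (hc : Reg c) : ∃ Y, ¬ Y.Countable ∧ Mono c Y := by
  classical
  let u : (K → Bool) → K → Bool := fun x => Function.update x e0 false
  let c' : Sym2 (K → Bool) → K := fun p => if ∀ x ∈ p, ∀ y ∈ p, x e0 = y e0 then c p else e0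
  have hc1 : ∀ x y, x e0 = y e0 → c' s(x, y) = c s(x, y) := by
    intro x y h
    refine if_pos (fun a ha b hb => ?_)
    rcases Sym2.mem_iff.1 ha with rfl | rfl <;> rcases Sym2.mem_iff.1 hb with rfl | rfl <;>
      simp [h]
  obtain ⟨Y, i, h3, h4⟩ := Pool.Agent.H6Delta.main le_rfl h2 e1
    (le_aleph0_iff_set_countable.2 ((countable_singleton e0).mono (fun a ha => h1 a ha))) c'
    (fun x y δ a b => by
      by_cases h : x e0 = y e0
      · rw [hc1 x y h]
        refine lt_max_of_lt_left (hc x y δ ⟨a, b⟩ ⟨e0, lt_of_not_ge (fun h5 => b ?_)⟩)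
        rw [h1 δ (h5.trans_lt h01)]; exact h
      · have : c' s(x, y) = e0 := if_neg (fun h5 => h (h5 x (by simp) y (by simp)))
        rw [this]; exact lt_max_of_lt_right h01)
  have h5 : ¬ Y.Countable := fun h => not_le.2 h3 (le_aleph0_iff_set_countable.2 h)
  have h6 : ∃ b, ¬ {x | x ∈ Y ∧ x e0 = b}.Countable := by
    by_contra h7
    push Not at h7
    exact h5 (((h7 false).union (h7 true)).mono (fun x hx => by
      cases h : x e0
      · exact Or.inl ⟨hx, h⟩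
      · exact Or.inr ⟨hx, h⟩))
  obtain ⟨b, hb⟩ := h6
  refine ⟨_, hb, i, fun x hx y hy hne => ?_⟩
  rw [← hc1 x y (hx.2.trans hy.2.symm)]
  exact h4 x hx.1 y hy.1 hne

end

lemma init (κ : Cardinal.{0}) (hκ : ℵ₀ < κ) : ∃ (e : ℕ → κ.ord.ToType) (w : κ.ord.ToType),
    (∀ a n, a < e n ↔ ∃ k < n, a = e k) ∧ ∀ a, a < w ↔ ∃ k, a = e k := by
  have h1 : Ordinal.omega0 < κ.ord := by rw [← ord_aleph0]; exact ord_lt_ord.2 hκ
  have h2 : ∀ n : ℕ, (n : Ordinal.{0}) < κ.ord := fun n => (Ordinal.natCast_lt_omega0 n).trans h1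
  refine ⟨fun n => Ordinal.ToType.mk ⟨n, h2 n⟩, Ordinal.ToType.mk ⟨Ordinal.omega0, h1⟩, fun a n => ?_,
    fun a => ?_⟩
  · obtain ⟨⟨o, ho⟩, rfl⟩ := Ordinal.ToType.mk.surjective a
    simp only [OrderIso.lt_iff_lt, Subtype.mk_lt_mk, EmbeddingLike.apply_eq_iff_eq, Subtype.mk.injEq]
    constructor
    · intro h
      obtain ⟨k, rfl⟩ := Ordinal.lt_omega0.1 (h.trans (Ordinal.natCast_lt_omega0 n))
      exact ⟨k, by exact_mod_cast h, rfl⟩
    · rintro ⟨k, hk, rfl⟩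
      exact_mod_cast hk
  · obtain ⟨⟨o, ho⟩, rfl⟩ := Ordinal.ToType.mk.surjective a
    simp only [OrderIso.lt_iff_lt, Subtype.mk_lt_mk, EmbeddingLike.apply_eq_iff_eq, Subtype.mk.injEq]
    exact Ordinal.lt_omega0

/-- For uncountable `κ`: every `Δ`-regressive colouring has a monochromatic set of size four; if
`2^κ = 2^ℵ₀` some `Δ`-regressive colouring has no monochromatic set with more than four points;
if `2^ℵ₀ < 2^κ` every `Δ`-regressive colouring has an uncountable monochromatic set. -/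
theorem result (κ : Cardinal.{0}) (hκ : ℵ₀ < κ) :
    (∀ c : Sym2 (κ.ord.ToType → Bool) → κ.ord.ToType, Reg c →
      ∃ Y : Set (κ.ord.ToType → Bool), Y.ncard = 4 ∧ Mono c Y) ∧
    ((2 : Cardinal.{0}) ^ κ = 2 ^ ℵ₀ → ∃ c : Sym2 (κ.ord.ToType → Bool) → κ.ord.ToType, Reg c ∧
      ∀ Y : Set (κ.ord.ToType → Bool), Mono c Y → Y.encard ≤ 4) ∧
    ((2 : Cardinal.{0}) ^ ℵ₀ < 2 ^ κ → ∀ c : Sym2 (κ.ord.ToType → Bool) → κ.ord.ToType, Reg c →
      ∃ Y : Set (κ.ord.ToType → Bool), ¬ Y.Countable ∧ Mono c Y) := by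
  obtain ⟨e, w, he, hw⟩ := init κ hκ
  refine ⟨four e w he hw, fun h => ?_, fun h => big (e 0) (e 1) ((he _ _).2 ⟨0, one_pos, rfl⟩)
    (fun a ha => ?_) (by rwa [mk_ord_toType])⟩
  · have h1 : #(κ.ord.ToType → Bool) ≤ #(ℕ → Bool) := by
      simp only [mk_arrow, lift_id, mk_bool, mk_ord_toType, mk_nat]
      exact h.le
    obtain ⟨f⟩ := h1
    exact five e w he hw f
  · obtain ⟨k, hk, rfl⟩ := (he _ _).1 ha
    rw [Nat.lt_one_iff.1 hk]

end Pool.Agent.Results.MP_553296_lc.DeltaFour
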